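import Pool.Agent.Y462.PA.Stm

/-!
# Project PA, job PA-FIN: amalgams over finite groups with a common finite quotient
-/

set_option autoImplicit false
set_option linter.all false

namespace Pool.Agent.Y261.PA

open Pool.Agent.Y462.SS Pool.Agent.Y462.PA

/-- functoriality of the wreath product -/
def wmap {X Γ Δ : Type} [Group Γ] [Group Δ] (φ : Γ →* Δ) : Wr X Γ →* Wr X Δ where
  toFun a := ⟨fun x => φ (a.s x), a.p⟩
  map_one' := by
    ext x
    · simp
    · rfl
  map_mul' a b := by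
    ext x
    · simp
    · rfl

/-- the cocycle embedding -/
def coc {Γ Q : Type} [Group Γ] [Group Q] (φ : Γ →* Q) (k : Q → Γ) : Γ →* Wr Q Γ where
  toFun a := ⟨fun q => (k (φ a * q))⁻¹ * a * k q, Equiv.mulLeft (φ a)⟩
  map_one' := by
    ext q
    · simp
    · simp
  map_mul' a b := by
    ext q
    · simp [mul_assoc]
    · simp [mul_assoc]

theorem coc_inj {Γ Q : Type} [Group Γ] [Group Q] (φ : Γ →* Q) (k : Q → Γ) :
    Function.Injective (coc φ k) := by
  rw [injective_iff_map_eq_one]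
  intro w hw
  have h1 : (coc φ k w).p = 1 := by rw [hw]; rfl
  have h2 : φ w = 1 := by
    have h3 := congrArg (fun e : Equiv.Perm Q => e 1) h1
    have h4 : φ w * 1 = 1 := h3
    rwa [mul_one] at h4
  have h5 : (coc φ k w).s 1 = 1 := by rw [hw]; rfl
  have h6 : (k (φ w * 1))⁻¹ * w * k 1 = 1 := h5
  rw [h2, one_mul, mul_assoc, inv_mul_eq_one] at h6
  exact mul_eq_right.1 h6.symm

/-- an equivariant map to `K` -/
theorem exists_kappa {K Q : Type} [Group K] [Group Q] (e : K →* Q) (he : Function.Injective e) :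
    ∃ κ : Q → K, ∀ c q, κ (e c * q) = c * κ q := by
  have hr : ∀ q : Q, ∃ c : K,
      q * ((Quotient.mk (QuotientGroup.rightRel e.range) q).out)⁻¹ = e c := by
    intro q
    have h1 : (QuotientGroup.rightRel e.range).r
        ((Quotient.mk (QuotientGroup.rightRel e.range) q).out) q :=
      Quotient.exact (Quotient.out_eq _)
    have h2 := QuotientGroup.rightRel_apply.1 h1
    obtain ⟨c, hc⟩ := h2
    exact ⟨c, hc.symm⟩
  choose κ hκ using hr
  refine ⟨κ, fun c q => ?_⟩
  apply he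
  have h1 : (Quotient.mk (QuotientGroup.rightRel e.range) (e c * q)) =
      Quotient.mk (QuotientGroup.rightRel e.range) q := by
    apply Quotient.sound
    apply QuotientGroup.rightRel_apply.2
    rw [mul_inv_rev, ← mul_assoc, mul_inv_cancel, one_mul]
    exact ⟨c⁻¹, map_inv e c⟩
  rw [← hκ, h1, mul_assoc, hκ, map_mul]

theorem t_fin (hwr : S_WR) : S_FIN := by
  intro C hC K A B _ _ _ α β _ hA hB hf
  obtain ⟨Q, _, f, hQ, hinj⟩ := hf
  obtain ⟨κ, hκ⟩ := exists_kappa (f.comp ((Am.inl α β).comp α)) hinj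
  set ΘA : A →* Wr Q (Monoid.Coprod A B) :=
    (wmap Monoid.Coprod.inl).comp (coc (f.comp (Am.inl α β)) fun q => α (κ q)) with hΘA
  set ΘB : B →* Wr Q (Monoid.Coprod A B) :=
    (wmap Monoid.Coprod.inr).comp (coc (f.comp (Am.inr α β)) fun q => β (κ q)) with hΘB
  have hκ1 : ∀ c q, κ (f (Am.inl α β (α c)) * q) = c * κ q := hκ
  have hκ2 : ∀ c q, κ (f (Am.inr α β (β c)) * q) = c * κ q := by
    intro c q
    rw [← Am.glue]
    exact hκ1 c q
  have hglue : ∀ c, ΘA (α c) = ΘB (β c) := by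
    intro c
    apply Wr.ext
    · funext q
      show Monoid.Coprod.inl ((α (κ (f (Am.inl α β (α c)) * q)))⁻¹ * α c * α (κ q)) =
        Monoid.Coprod.inr ((β (κ (f (Am.inr α β (β c)) * q)))⁻¹ * β c * β (κ q))
      rw [hκ1, hκ2]
      simp [mul_assoc]
    · show Equiv.mulLeft (f (Am.inl α β (α c))) = Equiv.mulLeft (f (Am.inr α β (β c)))
      rw [Am.glue]
  set Θ : Am α β →* Wr Q (Monoid.Coprod A B) := Am.lift α β ΘA ΘB hglue with hΘ
  set ρ : Monoid.Coprod A B →* Am α β := Monoid.Coprod.lift (Am.inl α β) (Am.inr α β) with hρ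
  have key : (wmap ρ).comp Θ = coc f fun q => Am.inl α β (α (κ q)) := by
    apply Am.hom_ext
    · intro a
      rw [MonoidHom.comp_apply, hΘ, Am.lift_inl]
      apply Wr.ext
      · funext q
        show ρ (Monoid.Coprod.inl ((α (κ (f (Am.inl α β a) * q)))⁻¹ * a * α (κ q))) =
          (Am.inl α β (α (κ (f (Am.inl α β a) * q))))⁻¹ * Am.inl α β a * Am.inl α β (α (κ q))
        rw [hρ, Monoid.Coprod.lift_apply_inl, map_mul, map_mul, map_inv]
      · rfl
    · intro b
      rw [MonoidHom.comp_apply, hΘ, Am.lift_inr]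
      apply Wr.ext
      · funext q
        show ρ (Monoid.Coprod.inr ((β (κ (f (Am.inr α β b) * q)))⁻¹ * b * β (κ q))) =
          (Am.inl α β (α (κ (f (Am.inr α β b) * q))))⁻¹ * Am.inr α β b * Am.inl α β (α (κ q))
        rw [hρ, Monoid.Coprod.lift_apply_inr, map_mul, map_mul, map_inv, Am.glue, Am.glue]
      · rfl
  refine hC.of_injective _ _ Θ ?_ (hwr C hC Q (Monoid.Coprod A B) hQ (hC.coprod A B hA hB))
  intro x y hxy
  apply coc_inj f fun q => Am.inl α β (α (κ q))
  rw [← key, MonoidHom.comp_apply, MonoidHom.comp_apply, hxy]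

end Pool.Agent.Y261.PA
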